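import Pool.Agent.H93.SC.Targets2
import Pool.Agent.H19.SCD.TargetsD
import Pool.Agent.H64.SC.Api2

namespace Pool.Agent.H12.SCD

open SC

variable {k K : Type} [Field k] [Field K] [Algebra k K]

/-- elements with prescribed minimal orders -/
def Hf (k : Type) {K : Type} [Field k] [Field K] [Algebra k K] (D : DV k K → ℤ) :
    Submodule k K where
  carrier := {g | ∀ v : DV k K, g = 0 ∨ D v ≤ v.ord g}
  zero_mem' := fun v => Or.inl rfl
  add_mem' := by
    intro a b ha hb v
    by_cases h3 : a + b = 0
    · exact Or.inl h3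
    right
    rcases ha v with h1 | h1
    · rcases hb v with h2 | h2
      · exact absurd (by rw [h1, h2]; simp) h3
      · simpa [h1] using h2
    · rcases hb v with h2 | h2
      · simpa [h2] using h1
      · by_cases h4 : a = 0
        · simpa [h4] using h2
        by_cases h5 : b = 0
        · simpa [h5] using h1
        have := v.ord_add a b h4 h5 h3
        omega
  smul_mem' := by
    intro c a ha v
    by_cases hc : c = 0
    · left; simp [hc]
    rcases ha v with h1 | h1
    · left; simp [h1]
    by_cases h4 : a = 0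
    · left; simp [h4]
    right
    rw [Algebra.smul_def, v.ord_mul _ _ (by simpa using hc) h4, v.ord_base]
    simpa using h1

theorem mem_Hf {D : DV k K → ℤ} {g : K} : g ∈ Hf k D ↔ ∀ v : DV k K, g = 0 ∨ D v ≤ v.ord g :=
  Iff.rfl

theorem Hs_eq_Hf (φ : List (ℤ × Sys K)) : Hs k φ = Hf k (fun v => v.val φ) := rfl

/-- one step -/
theorem step (D D' : DV k K → ℤ) (v0 : DV k K) (h0 : D' v0 + 1 = D v0)
    (h : ∀ v, v ≠ v0 → D' v = D v) [Module.Finite k v0.Res] [Module.Finite k (Hf k D)] :
    Module.Finite k (Hf k D') ∧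
      Module.finrank k (Hf k D') ≤ Module.finrank k (Hf k D) + v0.deg := by
  classical
  have hle : Hf k D ≤ Hf k D' := by
    intro g hg v
    rcases hg v with h1 | h1
    · exact Or.inl h1
    · right
      by_cases hv : v = v0
      · subst hv; omega
      · rw [h v hv]; exact h1
  set n := D' v0 with hn
  have hnn : ∀ g ∈ Hf k D', 0 ≤ v0.ord (g * v0.unif ^ (-n)) := by
    intro g hg
    by_cases hg0 : g = 0
    · rw [hg0, zero_mul, v0.ord_zero]
    · rw [v0.ord_mul' hg0 (v0.unif_zpow_ne_zero _), v0.ord_unif_zpow]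
      have := (hg v0).resolve_left hg0
      omega
  let f : Hf k D' →ₗ[k] v0.Res :=
    { toFun := fun g => v0.red ((g : K) * v0.unif ^ (-n))
      map_add' := by
        intro a b
        rw [Submodule.coe_add, add_mul, v0.red_add (hnn a a.2) (hnn b b.2)]
      map_smul' := by
        intro c a
        rw [Submodule.coe_smul, smul_mul_assoc, v0.red_smul c (hnn a a.2), RingHom.id_apply] }
  have hf : ∀ g : Hf k D', f g = v0.red ((g : K) * v0.unif ^ (-n)) := fun g => rfl
  have hker : LinearMap.ker f = (Hf k D).comap (Hf k D').subtype := by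
    ext g
    rw [LinearMap.mem_ker, hf, v0.red_eq_zero_iff (hnn g g.2), Submodule.mem_comap,
      Submodule.subtype_apply, mem_Hf]
    constructor
    · rintro h1 v
      by_cases hg0 : (g : K) = 0
      · exact Or.inl hg0
      right
      by_cases hv : v = v0
      · subst hv
        rcases h1 with h1 | h1
        · exact absurd (mul_eq_zero.1 h1) (by
            push Not
            exact ⟨hg0, v.unif_zpow_ne_zero _⟩)
        · rw [v.ord_mul' hg0 (v.unif_zpow_ne_zero _), v.ord_unif_zpow] at h1
          omega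
      · rw [← h v hv]
        exact (g.2 v).resolve_left hg0
    · intro h1
      by_cases hg0 : (g : K) = 0
      · left; rw [hg0, zero_mul]
      right
      rw [v0.ord_mul' hg0 (v0.unif_zpow_ne_zero _), v0.ord_unif_zpow]
      have := (h1 v0).resolve_left hg0
      omega
  have e : LinearMap.ker f ≃ₗ[k] Hf k D :=
    (LinearEquiv.ofEq _ _ hker).trans (Submodule.comapSubtypeEquivOfLe hle)
  have hkf : Module.Finite k (LinearMap.ker f) := Module.Finite.equiv e.symm
  have hrf : Module.Finite k (LinearMap.range f) := inferInstance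
  have hfin : Module.Finite k (Hf k D') := by
    have e2 := f.quotKerEquivRange
    have : Module.Finite k (Hf k D' ⧸ LinearMap.ker f) := Module.Finite.equiv e2.symm
    exact Module.Finite.of_submodule_quotient (LinearMap.ker f)
  refine ⟨hfin, ?_⟩
  have h1 := LinearMap.finrank_range_add_finrank_ker f
  have h2 : Module.finrank k (LinearMap.ker f) = Module.finrank k (Hf k D) :=
    LinearEquiv.finrank_eq e
  have h3 : Module.finrank k (LinearMap.range f) ≤ v0.deg := Submodule.finrank_le _
  omega

/-- the bound for `D ≤ 0` -/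
theorem bound (hres : ∀ v : DV k K, Module.Finite k v.Res)
    (h0 : Module.Finite k (Hf k (fun _ : DV k K => (0 : ℤ)))) (F : Finset (DV k K)) (N : ℕ) :
    ∀ D : DV k K → ℤ, (∀ v, D v ≤ 0) → (∀ v, v ∉ F → D v = 0) → ∑ v ∈ F, (- D v).toNat = N →
    Module.Finite k (Hf k D) ∧ (Module.finrank k (Hf k D) : ℤ) ≤
      Module.finrank k (Hf k (fun _ : DV k K => (0 : ℤ))) + ∑ v ∈ F, (v.deg : ℤ) * (- D v) := by
  classical
  induction N with
  | zero =>
    intro D hD hF hN
    have hz : D = fun _ => 0 := by
      funext v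
      by_cases hv : v ∈ F
      · have := (Finset.sum_eq_zero_iff.1 hN) v hv
        have h2 := hD v
        omega
      · exact hF v hv
    subst hz
    refine ⟨h0, ?_⟩
    simp
  | succ N ih =>
    intro D hD hF hN
    obtain ⟨v0, hv0, hne⟩ : ∃ v ∈ F, (- D v).toNat ≠ 0 := by
      by_contra hcon
      push Not at hcon
      rw [Finset.sum_eq_zero hcon] at hN
      omega
    have hlt : D v0 ≤ -1 := by omega
    set D1 : DV k K → ℤ := Function.update D v0 (D v0 + 1) with hD1
    have hD1v0 : D1 v0 = D v0 + 1 := by rw [hD1, Function.update_self]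
    have hD1v : ∀ v, v ≠ v0 → D1 v = D v := by
      intro v hv
      rw [hD1, Function.update_of_ne hv]
    have hs1 : ∑ v ∈ F, (- D1 v).toNat = N := by
      rw [← Finset.add_sum_erase F _ hv0] at hN ⊢
      have : ∑ v ∈ F.erase v0, (- D1 v).toNat = ∑ v ∈ F.erase v0, (- D v).toNat := by
        refine Finset.sum_congr rfl fun v hv => ?_
        rw [hD1v v (Finset.ne_of_mem_erase hv)]
      rw [this, hD1v0]
      omega
    obtain ⟨hfin, hle⟩ := ih D1 (by
      intro v
      by_cases hv : v = v0
      · subst hv; rw [hD1v0]; omega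
      · rw [hD1v v hv]; exact hD v) (by
      intro v hv
      have : v ≠ v0 := fun h => hv (h ▸ hv0)
      rw [hD1v v this]; exact hF v hv) hs1
    have := hres v0
    obtain ⟨h1, h2⟩ := step D1 D v0 (by rw [hD1v0]) (fun v hv => (hD1v v hv).symm)
    refine ⟨h1, ?_⟩
    have h3 : ∑ v ∈ F, (v.deg : ℤ) * (- D v) = ∑ v ∈ F, (v.deg : ℤ) * (- D1 v) + v0.deg := by
      rw [← Finset.add_sum_erase F (fun v => (v.deg : ℤ) * (- D v)) hv0,
        ← Finset.add_sum_erase F (fun v => (v.deg : ℤ) * (- D1 v)) hv0]
      have : ∑ v ∈ F.erase v0, (v.deg : ℤ) * (- D1 v) = ∑ v ∈ F.erase v0, (v.deg : ℤ) * (- D v) := by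
        refine Finset.sum_congr rfl fun v hv => ?_
        rw [hD1v v (Finset.ne_of_mem_erase hv)]
      rw [this, hD1v0]
      ring
    rw [h3]
    have h4 : (Module.finrank k (Hf k D) : ℤ) ≤ Module.finrank k (Hf k D1) + v0.deg := by
      exact_mod_cast h2
    linarith

/-- elements algebraic over the base have order zero -/
theorem ord_eq_zero_of_isAlgebraic (v : DV k K) {g : K} (hg : IsAlgebraic k g) : v.ord g = 0 := by
  have key : ∀ g : K, IsAlgebraic k g → 0 ≤ v.ord g := by
    intro g hg
    have hint : IsIntegral k g := hg.isIntegral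
    have h2 : IsIntegral v.vs g := hint.tower_top
    obtain ⟨y, hy⟩ := IsIntegrallyClosed.isIntegral_iff.1 h2
    rw [← hy]
    exact y.2
  have h1 := key g hg
  have h2 := key g⁻¹ hg.inv
  rw [v.ord_inv] at h2
  omega

/-- a transcendental element of a function field of one variable -/
theorem finiteDimensional_of_transcendental [Algebra.EssFiniteType k K]
    (h1 : Algebra.trdeg k K = 1) {t : K} (ht : Transcendental k t) :
    FiniteDimensional (IntermediateField.adjoin k {t}) K := by
  have hind : AlgebraicIndependent k (fun _ : Unit => t) := by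
    rw [algebraicIndependent_unique_type_iff]
    exact ht
  have hb : IsTranscendenceBasis k (fun _ : Unit => t) := by
    apply hind.isTranscendenceBasis_of_trdeg_le_of_finite
    rw [h1]
    simp
  have halg := hb.isAlgebraic_field
  have hr : Set.range (fun _ : Unit => t) = {t} := by
    ext x; simp [eq_comm]
  rw [hr] at halg
  have hess : Algebra.EssFiniteType (IntermediateField.adjoin k {t}) K :=
    Algebra.EssFiniteType.of_comp k _ K
  obtain ⟨s, hs⟩ := IntermediateField.fg_top (IntermediateField.adjoin k {t}) K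
  have hfd : FiniteDimensional (IntermediateField.adjoin k {t})
      (IntermediateField.adjoin (IntermediateField.adjoin k {t}) (s : Set K)) :=
    IntermediateField.finiteDimensional_adjoin fun x _ => (halg.isAlgebraic x).isIntegral
  rw [hs] at hfd
  exact Module.Finite.equiv (IntermediateField.topEquiv (F := IntermediateField.adjoin k {t})
    (E := K)).toLinearEquiv

theorem exists_pole (hV5 : T_V5) [CharZero k] [Algebra.EssFiniteType k K]
    (h1 : Algebra.trdeg k K = 1) {t : K} (ht : Transcendental k t) :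
    ∃ v : DV k K, v.ord t < 0 := by
  have hfd := finiteDimensional_of_transcendental h1 ht
  obtain ⟨-, -, h⟩ := hV5 k K t ht hfd
  by_contra hcon
  push Not at hcon
  have h0 : ∀ v : DV k K, (v.deg : ℤ) * max 0 (- v.ord t) = 0 := by
    intro v
    have := hcon v
    rw [max_eq_left (by omega), mul_zero]
  rw [finsum_congr h0, finsum_zero] at h
  have hpos : 0 < Module.finrank (IntermediateField.adjoin k {t}) K := Module.finrank_pos
  omega

theorem finite_zero (hV5 : T_V5) (hV6a : T_V6a) [CharZero k] [Algebra.EssFiniteType k K]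
    (h1 : Algebra.trdeg k K = 1) : Module.Finite k (Hf k (fun _ : DV k K => (0 : ℤ))) := by
  obtain ⟨t, ht⟩ : ∃ t : K, Transcendental k t := by
    by_contra hcon
    push Not at hcon
    have : Algebra.IsAlgebraic k K := ⟨fun x => by
      have := hcon x
      rwa [Transcendental, not_not] at this⟩
    have h2 : Algebra.trdeg k K = 0 := trdeg_eq_zero
    rw [h2] at h1
    exact zero_ne_one h1
  obtain ⟨v0, -⟩ := exists_pole hV5 h1 ht
  have hfin := hV6a k K h1 v0
  have hord : ∀ g ∈ Hf k (fun _ : DV k K => (0 : ℤ)), v0.ord g = 0 := by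
    intro g hg
    by_cases hg0 : g = 0
    · rw [hg0, v0.ord_zero]
    have halg : IsAlgebraic k g := by
      by_contra hcon
      obtain ⟨v, hv⟩ := exists_pole hV5 h1 hcon
      have h3 : (0 : ℤ) ≤ v.ord g := (hg v).resolve_left hg0
      omega
    exact ord_eq_zero_of_isAlgebraic v0 halg
  let f : Hf k (fun _ : DV k K => (0 : ℤ)) →ₗ[k] v0.Res :=
    { toFun := fun g => v0.red (g : K)
      map_add' := by
        intro a b
        rw [Submodule.coe_add, v0.red_add (hord a a.2).ge (hord b b.2).ge]
      map_smul' := by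
        intro c a
        rw [Submodule.coe_smul, v0.red_smul c (hord a a.2).ge, RingHom.id_apply] }
  refine Module.Finite.of_injective f ?_
  rw [← LinearMap.ker_eq_bot, LinearMap.ker_eq_bot']
  intro g hg
  by_contra hne
  have hg0 : (g : K) ≠ 0 := fun h => hne (Subtype.ext h)
  exact v0.red_ne_zero hg0 (hord g g.2) hg

/-- the degree of a formal combination of systems on a curve -/
theorem degs_curve (hM1 : T_M1) (hG2r : T_G2r) [CharZero k] [Algebra.EssFiniteType k K]
    (h1 : Algebra.trdeg k K = 1) (F : Finset (DV k K)) (φ : List (ℤ × Sys K)) (hφ : Nzl φ)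
    (hF : ∀ p ∈ φ, ∀ v : DV k K, v.mo p.2 ≠ 0 → v ∈ F) :
    degs k (fun i : Empty => i.elim) φ = - ∑ v ∈ F, (v.deg : ℤ) * v.val φ := by
  induction φ with
  | nil => simp
  | cons p φ ih =>
    have ih' := ih (fun q hq => hφ q (List.mem_cons_of_mem _ hq))
      (fun q hq => hF q (List.mem_cons_of_mem _ hq))
    rw [degs_cons, ih']
    have hidx : (Idx (Sum.elim (fun _ : Unit => p.2) (fun i : Empty => i.elim)) k : ℤ) =
        - ∑ v ∈ F, (v.deg : ℤ) * v.mo p.2 := by
      have h2 := hG2r k K Unit (Unit ⊕ Empty) (fun _ : Unit => p.2)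
        (Equiv.sumEmpty Unit Empty) (fun _ => hφ p (List.mem_cons_self ..))
      have h3 : (fun j => (fun _ : Unit => p.2) ((Equiv.sumEmpty Unit Empty) j)) =
          Sum.elim (fun _ : Unit => p.2) (fun i : Empty => i.elim) := by
        funext j
        rcases j with j | j
        · rfl
        · exact j.elim
      rw [h3] at h2
      rw [h2, hM1 k K h1 p.2 (hφ p (List.mem_cons_self ..))]
      rw [finsum_eq_sum_of_support_subset (s := F)]
      intro v hv
      rw [Function.mem_support] at hv
      exact hF p (List.mem_cons_self ..) v (fun h => hv (by rw [h, mul_zero]))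
    rw [hidx]
    have h4 : ∑ v ∈ F, (v.deg : ℤ) * v.val (p :: φ) =
        p.1 * ∑ v ∈ F, (v.deg : ℤ) * v.mo p.2 + ∑ v ∈ F, (v.deg : ℤ) * v.val φ := by
      rw [Finset.mul_sum, ← Finset.sum_add_distrib]
      refine Finset.sum_congr rfl fun v _ => ?_
      rw [DV.val_cons]
      ring
    rw [h4]
    ring

/-- D0B -/
theorem d0b (hV5 : T_V5) (hV6a : T_V6a) (hV6b : T_V6b) (hV6c : T_V6c) (hM1 : T_M1)
    (hG2r : T_G2r) : T_D0b := by
  classical
  intro k K _ _ _ _ _ h1 φ hφ
  have hres := hV6a k K h1
  have h0 := finite_zero (k := k) (K := K) hV5 hV6a h1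
  have hnil : Hs k ([] : List (ℤ × Sys K)) = Hf k (fun _ : DV k K => (0 : ℤ)) := by
    rw [Hs_eq_Hf]
    rfl
  rw [hnil]
  by_cases hbot : ∀ g ∈ Hs k φ, g = 0
  · have hb : Hs k φ = ⊥ := by
      rw [Submodule.eq_bot_iff]; exact hbot
    rw [hb]
    refine ⟨inferInstance, ?_⟩
    rw [finrank_bot]
    have := le_max_left (0 : ℤ) (degs k (fun i : Empty => i.elim) φ)
    positivity
  push Not at hbot
  obtain ⟨g, hg, hg0⟩ := hbot
  -- a finite set of places
  have hfin : {v : DV k K | (∃ p ∈ φ, v.mo p.2 ≠ 0) ∨ v.ord g ≠ 0}.Finite := by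
    have hA : {v : DV k K | ∃ p ∈ φ, v.mo p.2 ≠ 0}.Finite := by
      have : {v : DV k K | ∃ p ∈ φ, v.mo p.2 ≠ 0} ⊆
          ⋃ p ∈ φ.toFinset, ⋃ i : Fin p.2.r, {v : DV k K | v.ord (p.2.s i) ≠ 0} := by
        rintro v ⟨p, hp, hv⟩
        obtain ⟨i, hi, hvi⟩ := v.mo_exists p.2 (hφ p hp)
        simp only [Set.mem_iUnion]
        refine ⟨p, List.mem_toFinset.2 hp, i, ?_⟩
        change v.ord (p.2.s i) ≠ 0
        rw [hvi]; exact hv
      refine Set.Finite.subset ?_ this
      refine Set.Finite.biUnion (Finset.finite_toSet _) fun p _ => ?_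
      exact Set.finite_iUnion fun i => hV6b k K h1 _
    exact (hA.union (hV6b k K h1 g)).subset (by
      rintro v (hv | hv)
      · exact Or.inl hv
      · exact Or.inr hv)
  set F := hfin.toFinset with hF
  have hFmem : ∀ v : DV k K, v ∈ F ↔ ((∃ p ∈ φ, v.mo p.2 ≠ 0) ∨ v.ord g ≠ 0) := by
    intro v
    rw [hF, Set.Finite.mem_toFinset]
    rfl
  have hval : ∀ (ψ : List (ℤ × Sys K)) (v : DV k K), (∀ p ∈ ψ, v.mo p.2 = 0) → v.val ψ = 0 := by
    intro ψ v
    induction ψ with
    | nil => intro _; rfl
    | cons p ψ ih =>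
      intro h
      rw [DV.val_cons, h p (List.mem_cons_self ..), mul_zero, zero_add]
      exact ih fun q hq => h q (List.mem_cons_of_mem _ hq)
  set D : DV k K → ℤ := fun v => v.val φ - v.ord g with hD
  have hDle : ∀ v, D v ≤ 0 := by
    intro v
    have := (hg v).resolve_left hg0
    simp only [hD]
    omega
  have hDF : ∀ v, v ∉ F → D v = 0 := by
    intro v hv
    rw [hFmem] at hv
    push Not at hv
    simp only [hD]
    rw [hv.2, hval φ v (fun p hp => hv.1 p hp)]
    simp
  obtain ⟨hb1, hb2⟩ := bound hres h0 F _ D hDle hDF rfl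
  -- multiplication by g⁻¹
  let e : Hs k φ ≃ₗ[k] Hf k D :=
    { toFun := fun x => ⟨(x : K) * g⁻¹, by
        intro v
        by_cases hx : (x : K) = 0
        · left; rw [hx, zero_mul]
        · right
          rw [v.ord_mul' hx (inv_ne_zero hg0), v.ord_inv]
          have := (x.2 v).resolve_left hx
          simp only [hD]
          omega⟩
      map_add' := by
        intro a b
        apply Subtype.ext
        simp [add_mul]
      map_smul' := by
        intro c a
        apply Subtype.ext
        simp
      invFun := fun x => ⟨(x : K) * g, by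
        intro v
        by_cases hx : (x : K) = 0
        · left; rw [hx, zero_mul]
        · right
          rw [v.ord_mul' hx hg0]
          have := (x.2 v).resolve_left hx
          simp only [hD] at this
          omega⟩
      left_inv := by
        intro x
        apply Subtype.ext
        simp [hg0]
      right_inv := by
        intro x
        apply Subtype.ext
        simp [hg0] }
  have hf1 : Module.Finite k (Hs k φ) := Module.Finite.equiv e.symm
  refine ⟨hf1, ?_⟩
  rw [LinearEquiv.finrank_eq e]
  have hprod : ∑ v ∈ F, (v.deg : ℤ) * v.ord g = 0 := by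
    rw [← hV6c k K h1 g]
    symm
    apply finsum_eq_sum_of_support_subset
    intro v hv
    rw [Function.mem_support] at hv
    rw [Finset.mem_coe, hFmem]
    right
    intro h
    exact hv (by rw [h, mul_zero])
  have hdeg := degs_curve hM1 hG2r h1 F φ hφ (fun p hp v hv => (hFmem v).2 (Or.inl ⟨p, hp, hv⟩))
  have hsum : ∑ v ∈ F, (v.deg : ℤ) * (- D v) = degs k (fun i : Empty => i.elim) φ := by
    rw [hdeg]
    have : ∑ v ∈ F, (v.deg : ℤ) * (- D v) =
        ∑ v ∈ F, (v.deg : ℤ) * v.ord g - ∑ v ∈ F, (v.deg : ℤ) * v.val φ := by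
      rw [← Finset.sum_sub_distrib]
      refine Finset.sum_congr rfl fun v _ => ?_
      simp only [hD]
      ring
    rw [this, hprod]
    ring
  rw [hsum] at hb2
  refine hb2.trans ?_
  have := le_max_right (0 : ℤ) (degs k (fun i : Empty => i.elim) φ)
  linarith

end Pool.Agent.H12.SCD
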